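import Mathlib

/-!
# A finite inverse semigroup with knit degree two

We build a finite non-commutative inverse semigroup `S` whose commuting graph contains a left path,
and whose shortest left path has length exactly `2`.  Hence `kd(S)` is defined and `kd(S) = 2 > 1`.

The construction: let `T` be the inverse semigroup (with zero) of partial injections of
`{0,1,2}` generated by `2 <- 1` and `1 <- 0, 2 <- 1`; its nonzero elements are graded by `ZMod 3`
(displacement).  Let `H = Perm (Fin 3) x C_3` with the central element `c` of order `3`.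
`S` consists of the pairs `(h, 0)` and of the pairs `(c ^ deg t, t)` with `t` nonzero.
-/

set_option autoImplicit false

namespace Pool.Agent.Results.MP_90db2d_al.KnitDegreeTwo

/-- `x` is central in `S`. -/
def IsCentral {S : Type} [Semigroup S] (x : S) : Prop := ∀ y : S, x * y = y * x

/-- `S` is an inverse semigroup: every `x` has a unique `y` with `x y x = x` and `y x y = y`. -/
def IsInverseSemigroup (S : Type) [Semigroup S] : Prop :=
  ∀ x : S, ∃! y : S, x * y * x = x ∧ y * x * y = y

/-- The commuting graph of `S`: its vertices are the non-central elements of `S`, and two distinct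
vertices are adjacent exactly when they commute. -/
def commutingGraph (S : Type) [Semigroup S] : SimpleGraph {x : S // ¬ IsCentral x} where
  Adj x y := x ≠ y ∧ x.1 * y.1 = y.1 * x.1
  symm := ⟨fun _ _ h => ⟨h.1.symm, h.2.symm⟩⟩
  loopless := ⟨fun _ h => h.1 rfl⟩

/-- A walk is a path in the sense of the problem: the edges are pairwise distinct, and the vertices
are pairwise distinct except that possibly the first one equals the last one. -/
def IsPathP {V : Type} {G : SimpleGraph V} {u v : V} (w : G.Walk u v) : Prop :=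
  w.edges.Nodup ∧
    ∀ i j : ℕ, i < j → j ≤ w.length → w.getVert i = w.getVert j → i = 0 ∧ j = w.length

/-- A left path: a path from `u` to `v` with `u ≠ v` and `u x = v x` for each vertex `x` on it. -/
def IsLeftPath {S : Type} [Semigroup S] {u v : {x : S // ¬ IsCentral x}}
    (w : (commutingGraph S).Walk u v) : Prop :=
  IsPathP w ∧ u ≠ v ∧ ∀ x ∈ w.support, u.1 * x.1 = v.1 * x.1

/-- The set of lengths of left paths in the commuting graph of `S`.  The knit degree of `S` is
defined when this set is nonempty, and then it is its least element. -/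
def leftPathLengths (S : Type) [Semigroup S] : Set ℕ :=
  {n | ∃ (u v : {x : S // ¬ IsCentral x}) (w : (commutingGraph S).Walk u v),
    IsLeftPath w ∧ w.length = n}

/-- `d` is the knit degree of `S` (in particular the knit degree is defined). -/
def IsKnitDegree (S : Type) [Semigroup S] (d : ℕ) : Prop := IsLeast (leftPathLengths S) d

/-! ## Partial maps of `Fin 3` -/

/-- Partial maps of `{0,1,2}`. -/
def PM : Type := Fin 3 → Option (Fin 3)

instance : DecidableEq PM := inferInstanceAs (DecidableEq (Fin 3 → Option (Fin 3)))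
instance : Fintype PM := inferInstanceAs (Fintype (Fin 3 → Option (Fin 3)))

/-- composition of partial maps (right to left). -/
def PM.comp (f g : PM) : PM := fun i => (g i).bind f

instance : Semigroup PM where
  mul := PM.comp
  mul_assoc f g h := by
    funext i
    change (h i).bind (fun j => (g j).bind f) = ((h i).bind g).bind f
    exact (Option.bind_assoc (h i) g f).symm

/-- build a partial map from its three values -/
def mk3 (a b c : Option (Fin 3)) : PM := ![a, b, c]

/-- the empty map -/
def z : PM := mk3 none none none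

/-- nonzero elements of degree `0`, `1`, `2` (mod 3) of `T`. -/
def T0 : List PM :=
  [mk3 (some 0) none none, mk3 none (some 1) none, mk3 none none (some 2),
   mk3 (some 0) (some 1) none, mk3 none (some 1) (some 2)]
def T1 : List PM :=
  [mk3 (some 1) none none, mk3 none (some 2) none, mk3 none none (some 0),
   mk3 (some 1) (some 2) none]
def T2 : List PM :=
  [mk3 none (some 0) none, mk3 none none (some 1), mk3 (some 2) none none,
   mk3 none (some 0) (some 1)]

/-- `Gr k`: the nonzero elements of `T` of degree `k`. -/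
def Gr (k : ZMod 3) : List PM := if k = 0 then T0 else if k = 1 then T1 else T2

theorem z_mul (f : PM) : z * f = z := by
  revert f; decide

theorem mul_z (f : PM) : f * z = z := by
  revert f; decide

/-- the grading is multiplicative up to zero -/
theorem gr_mul : ∀ k l : ZMod 3, ∀ s ∈ Gr k, ∀ t ∈ Gr l, s * t = z ∨ s * t ∈ Gr (k + l) := by
  decide +kernel

/-- grading is well defined and nonzero -/
theorem gr_unique : ∀ k l : ZMod 3, ∀ s ∈ Gr k, s ∈ Gr l → k = l := by
  decide

theorem gr_ne_z : ∀ k : ZMod 3, ∀ s ∈ Gr k, s ≠ z := by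
  decide

/-- existence of inverses in `T`, with degree negated -/
theorem gr_inv : ∀ k : ZMod 3, ∀ s ∈ Gr k, ∃ t ∈ Gr (-k), s * t * s = s ∧ t * s * t = t := by
  decide

/-- all elements of `T` -/
def TT : List PM := z :: (T0 ++ T1 ++ T2)

theorem TT_inv_unique : ∀ s ∈ TT, ∀ t ∈ TT, ∀ u ∈ TT, s * t * s = s → t * s * t = t →
    s * u * s = s → u * s * u = u → t = u := by
  decide +kernel

/-- the key combinatorial fact: there is no pair of distinct nonzero elements of the same degree
with all four products equal -/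
theorem key : ∀ k : ZMod 3, ∀ s ∈ Gr k, ∀ t ∈ Gr k, s * s = t * s → s * t = t * t →
    s * t = t * s → s = t := by
  decide +kernel

theorem gr_sub_TT : ∀ k : ZMod 3, ∀ s ∈ Gr k, s ∈ TT := by
  decide

theorem z_mem_TT : z ∈ TT := by
  decide

/-! ## The group `H` and the semigroup `S` -/

/-- `H = S_3 x C_3`. -/
abbrev H : Type := Equiv.Perm (Fin 3) × Multiplicative (ZMod 3)

/-- the central elements `c ^ k` -/
def c (k : ZMod 3) : H := (1, Multiplicative.ofAdd k)

theorem c_mul (k l : ZMod 3) : c k * c l = c (k + l) := rfl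

theorem c_inv (k : ZMod 3) : (c k)⁻¹ = c (-k) := by
  simp [c]

theorem c_comm (k : ZMod 3) (h : H) : c k * h = h * c k := by
  refine Prod.ext ?_ ?_
  · change (1 : Equiv.Perm (Fin 3)) * h.1 = h.1 * 1
    simp
  · change (Multiplicative.ofAdd k) * h.2 = h.2 * Multiplicative.ofAdd k
    exact mul_comm _ _

theorem c_inj {k l : ZMod 3} (h : c k = c l) : k = l := by
  have := congrArg Prod.snd h
  exact this

/-- membership in `S` -/
def InS (p : H × PM) : Prop := p.2 = z ∨ ∃ k : ZMod 3, p.1 = c k ∧ p.2 ∈ Gr k

theorem inS_mul {p q : H × PM} (hp : InS p) (hq : InS q) : InS (p.1 * q.1, p.2 * q.2) := by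
  rcases hp with hp | ⟨k, hk, hp⟩
  · left; change p.2 * q.2 = z; rw [hp, z_mul]
  · rcases hq with hq | ⟨l, hl, hq⟩
    · left; change p.2 * q.2 = z; rw [hq, mul_z]
    · rcases gr_mul k l _ hp _ hq with h | h
      · left; exact h
      · right
        refine ⟨k + l, ?_, h⟩
        change p.1 * q.1 = _
        rw [hk, hl, c_mul]

/-- The semigroup `S`. -/
def S : Type := {p : H × PM // InS p}

instance : Semigroup S where
  mul x y := ⟨(x.1.1 * y.1.1, x.1.2 * y.1.2), inS_mul x.2 y.2⟩
  mul_assoc x y w := by
    apply Subtype.ext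
    refine Prod.ext ?_ ?_
    · exact mul_assoc x.1.1 y.1.1 w.1.1
    · exact mul_assoc x.1.2 y.1.2 w.1.2

instance : Finite S := by
  have : Finite (H × PM) := inferInstance
  exact inferInstanceAs (Finite {p : H × PM // InS p})

theorem mul_fst (x y : S) : (x * y).1.1 = x.1.1 * y.1.1 := rfl
theorem mul_snd (x y : S) : (x * y).1.2 = x.1.2 * y.1.2 := rfl

theorem S_ext {x y : S} (h1 : x.1.1 = y.1.1) (h2 : x.1.2 = y.1.2) : x = y :=
  Subtype.ext (Prod.ext h1 h2)

theorem inS_TT {p : H × PM} (hp : InS p) : p.2 ∈ TT := by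
  rcases hp with hp | ⟨k, _, hp⟩
  · rw [hp]; exact z_mem_TT
  · exact gr_sub_TT k _ hp

theorem S_inverse : IsInverseSemigroup S := by
  intro x
  have hex : ∃ y : S, x * y * x = x ∧ y * x * y = y := by
    obtain ⟨⟨h, t⟩, hx⟩ := x
    rcases hx with hx | ⟨k, hk, hx⟩
    · refine ⟨⟨(h⁻¹, z), Or.inl rfl⟩, ?_, ?_⟩
      · apply S_ext
        · change h * h⁻¹ * h = h
          simp
        · change t * z * t = t
          rw [mul_z, z_mul]; exact hx.symm
      · apply S_ext
        · change h⁻¹ * h * h⁻¹ = h⁻¹
          simp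
        · change z * t * z = z
          rw [mul_z]
    · obtain ⟨u, hu, h1, h2⟩ := gr_inv k t hx
      refine ⟨⟨(h⁻¹, u), Or.inr ⟨-k, ?_, hu⟩⟩, ?_, ?_⟩
      · change h⁻¹ = c (-k)
        rw [← c_inv]
        exact congrArg _ hk
      · apply S_ext
        · change h * h⁻¹ * h = h
          simp
        · exact h1
      · apply S_ext
        · change h⁻¹ * h * h⁻¹ = h⁻¹
          simp
        · exact h2
  obtain ⟨y, hy1, hy2⟩ := hex
  refine ⟨y, ⟨hy1, hy2⟩, ?_⟩
  rintro w ⟨hw1, hw2⟩
  have e1 := congrArg (fun s : S => s.1.1) hy1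
  have e3 := congrArg (fun s : S => s.1.1) hw1
  change x.1.1 * y.1.1 * x.1.1 = x.1.1 at e1
  change x.1.1 * w.1.1 * x.1.1 = x.1.1 at e3
  have e4 : x.1.1 * w.1.1 * x.1.1 = x.1.1 * y.1.1 * x.1.1 := by rw [e1, e3]
  have e5 : w.1.1 = y.1.1 := mul_left_cancel (mul_right_cancel e4)
  refine S_ext e5 ?_
  refine TT_inv_unique x.1.2 (inS_TT x.2) w.1.2 (inS_TT w.2) y.1.2 (inS_TT y.2) ?_ ?_ ?_ ?_
  · exact congrArg (fun s : S => s.1.2) hw1
  · exact congrArg (fun s : S => s.1.2) hw2
  · exact congrArg (fun s : S => s.1.2) hy1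
  · exact congrArg (fun s : S => s.1.2) hy2

/-- elements `(c ^ k, 0)` are central -/
theorem central_of {x : S} {k : ZMod 3} (h1 : x.1.1 = c k) (h2 : x.1.2 = z) : IsCentral x := by
  intro y
  apply S_ext
  · rw [mul_fst, mul_fst, h1]; exact c_comm k _
  · rw [mul_snd, mul_snd, h2, z_mul, mul_z]

/-- the main algebraic fact: no two distinct commuting non-central `x, y` satisfy
`x x = y x` and `x y = y y`. -/
theorem no_short {x y : S} (hx : ¬ IsCentral x) (hy : ¬ IsCentral y) (hxy : x * y = y * x)
    (h1 : x * x = y * x) (h2 : x * y = y * y) : x = y := by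
  have e1 : x.1.1 * x.1.1 = y.1.1 * x.1.1 := congrArg (fun s : S => s.1.1) h1
  have e2 : x.1.1 = y.1.1 := mul_right_cancel e1
  refine S_ext e2 ?_
  rcases x.2 with hxz | ⟨k, hk, hxk⟩
  · rcases y.2 with hyz | ⟨l, hl, hyl⟩
    · rw [hxz, hyz]
    · exact absurd (central_of (e2.trans hl) hxz) hx
  · rcases y.2 with hyz | ⟨l, hl, hyl⟩
    · exact absurd (central_of (e2.symm.trans hk) hyz) hy
    · have hkl : k = l := c_inj (hk.symm.trans (e2.trans hl))
      subst hkl
      exact key k _ hxk _ hyl (congrArg (fun s : S => s.1.2) h1)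
        (congrArg (fun s : S => s.1.2) h2) (congrArg (fun s : S => s.1.2) hxy)

/-! ## The left path of length two -/

/-- the element `a = (c, 2 <- 1)` -/
def a : S := ⟨(c 1, mk3 none (some 2) none), Or.inr ⟨1, rfl, by decide⟩⟩

/-- the element `b = (c, 1 <- 0, 2 <- 1)` -/
def b : S := ⟨(c 1, mk3 (some 1) (some 2) none), Or.inr ⟨1, rfl, by decide⟩⟩

/-- the element `m = ((0 1), 0)` -/
def m : S := ⟨((Equiv.swap 0 1, 1), z), Or.inl rfl⟩

/-- an element not commuting with `m` -/
def m' : S := ⟨((Equiv.swap 1 2, 1), z), Or.inl rfl⟩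

theorem ab_ne : a * b ≠ b * a := by
  intro h
  have h2 : (a * b).1.2 = (b * a).1.2 := congrArg (fun s : S => s.1.2) h
  revert h2
  rw [mul_snd, mul_snd]
  decide

theorem mm'_ne : m * m' ≠ m' * m := by
  intro h
  have h2 : (m * m').1.1 = (m' * m).1.1 := congrArg (fun s : S => s.1.1) h
  revert h2
  rw [mul_fst, mul_fst]
  decide

theorem a_nc : ¬ IsCentral a := fun h => ab_ne (h b)
theorem b_nc : ¬ IsCentral b := fun h => ab_ne (h a).symm
theorem m_nc : ¬ IsCentral m := fun h => mm'_ne (h m')

theorem am : a * m = m * a := by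
  apply S_ext
  · rw [mul_fst, mul_fst]; exact c_comm 1 _
  · rw [mul_snd, mul_snd]; decide

theorem bm : b * m = m * b := by
  apply S_ext
  · rw [mul_fst, mul_fst]; exact c_comm 1 _
  · rw [mul_snd, mul_snd]; decide

theorem aa_ba : a * a = b * a := by
  apply S_ext
  · rfl
  · rw [mul_snd, mul_snd]; decide

theorem ab_bb : a * b = b * b := by
  apply S_ext
  · rfl
  · rw [mul_snd, mul_snd]; decide

theorem am_bm : a * m = b * m := by
  apply S_ext
  · rfl
  · rw [mul_snd, mul_snd]; decide

theorem a_ne_m : a ≠ m := by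
  intro h
  have h2 : a.1.2 = m.1.2 := congrArg (fun s : S => s.1.2) h
  revert h2; decide

theorem b_ne_m : b ≠ m := by
  intro h
  have h2 : b.1.2 = m.1.2 := congrArg (fun s : S => s.1.2) h
  revert h2; decide

theorem a_ne_b : a ≠ b := by
  intro h
  have h2 : a.1.2 = b.1.2 := congrArg (fun s : S => s.1.2) h
  revert h2; decide

/-- vertices -/
def va : {x : S // ¬ IsCentral x} := ⟨a, a_nc⟩
def vb : {x : S // ¬ IsCentral x} := ⟨b, b_nc⟩
def vm : {x : S // ¬ IsCentral x} := ⟨m, m_nc⟩

theorem adj_am : (commutingGraph S).Adj va vm :=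
  ⟨fun h => a_ne_m (congrArg Subtype.val h), am⟩

theorem adj_mb : (commutingGraph S).Adj vm vb :=
  ⟨fun h => b_ne_m (congrArg Subtype.val h).symm, bm.symm⟩

/-- A walk with nodup support is a path in the sense of the problem. -/
theorem isPathP_of_isPath {V : Type} {G : SimpleGraph V} {u v : V} {w : G.Walk u v}
    (hw : w.IsPath) : IsPathP w := by
  refine ⟨hw.isTrail.edges_nodup, ?_⟩
  intro i j hij hj h
  have := hw.getVert_injOn (Set.mem_ofPred.mpr (hij.le.trans hj)) (Set.mem_ofPred.mpr hj) h
  omega

/-- the walk `a - m - b` -/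
def theWalk : (commutingGraph S).Walk va vb :=
  SimpleGraph.Walk.cons adj_am (SimpleGraph.Walk.cons adj_mb SimpleGraph.Walk.nil)

theorem theWalk_left : IsLeftPath theWalk := by
  refine ⟨isPathP_of_isPath ?_, ?_, ?_⟩
  · rw [SimpleGraph.Walk.isPath_def]
    have h1 : va ≠ vm := fun h => a_ne_m (congrArg Subtype.val h)
    have h2 : va ≠ vb := fun h => a_ne_b (congrArg Subtype.val h)
    have h3 : vm ≠ vb := fun h => b_ne_m (congrArg Subtype.val h).symm
    simp [theWalk, h1, h2, h3]
  · exact fun h => a_ne_b (congrArg Subtype.val h)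
  · intro x hx
    simp only [theWalk, SimpleGraph.Walk.support_cons, SimpleGraph.Walk.support_nil,
      List.mem_cons, List.not_mem_nil, or_false] at hx
    rcases hx with rfl | rfl | rfl
    · exact aa_ba
    · exact am_bm
    · exact ab_bb

/-- The knit degree of `S` is `2`. -/
theorem S_knit : IsKnitDegree S 2 := by
  refine ⟨⟨va, vb, theWalk, theWalk_left, rfl⟩, ?_⟩
  rintro n ⟨u, v, w, ⟨-, huv, hl⟩, hn⟩
  by_contra hlt
  push Not at hlt
  have hcases : n = 0 ∨ n = 1 := by omega
  rcases hcases with h0 | h1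
  · exact huv (SimpleGraph.Walk.eq_of_length_eq_zero (hn.trans h0))
  · have hadj : (commutingGraph S).Adj u v := SimpleGraph.Walk.adj_of_length_eq_one (hn.trans h1)
    have e1 := hl u w.start_mem_support
    have e2 := hl v w.end_mem_support
    exact huv (Subtype.ext (no_short u.2 v.2 hadj.2 e1 e2))

/-- **Main result.** There is a finite non-commutative inverse semigroup whose knit degree is
defined and equal to `2` (so it is larger than `1`). -/
theorem result : ∃ (S : Type) (_ : Semigroup S), Finite S ∧ IsInverseSemigroup S ∧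
    (∃ x y : S, x * y ≠ y * x) ∧ IsKnitDegree S 2 :=
  ⟨S, inferInstance, inferInstance, S_inverse, ⟨a, b, ab_ne⟩, S_knit⟩

end Pool.Agent.Results.MP_90db2d_al.KnitDegreeTwo
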